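import Pool.Agent.L0h64.ZV.Wrd

/-!
# Relations between multiple zeta values and arbitrary complex numbers (helper64)

Partial result on Q1 of `MP_154526_nt`. Let `x_1, …, x_t` be arbitrary complex numbers. We consider
all multiple zeta values `ζ(w)` of words `w` of length at most `p` whose first letter is at least
`N` and whose letters are at most `κ N`, for large `N`. There is a set `H` of at most `t` integers
such that all polynomial relations of bounded degree and with integer coefficients of absolute value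
at most `C ^ N` between the `x_j` and the `ζ(w)`, for words `w` no sum of letters of which belongs to
`H`, follow from the stuffle product; moreover the values of the polynomials which are not zero by
the stuffle product are bounded from below.
-/

set_option autoImplicit false

namespace Pool.Agent.Results.MP_154526_nt.ArbitraryParameters

/-- `nested [a_1, …, a_r] m` is the sum of `1 / (n_1 ^ a_1 ⋯ n_r ^ a_r)` over the integers
`m > n_1 > ⋯ > n_r ≥ 1`. -/
noncomputable def nested : List ℕ → ℕ → ℝ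
  | [], _ => 1
  | a :: l, m => ∑ n ∈ Finset.Ico 1 m, nested l n / (n : ℝ) ^ a

/-- `mzv [a_1, …, a_r]` is the sum of `1 / (n_1 ^ a_1 ⋯ n_r ^ a_r)` over all integers
`n_1 > ⋯ > n_r ≥ 1`. -/
noncomputable def mzv : List ℕ → ℝ
  | [] => 1
  | a :: l => ∑' k : ℕ, nested l (k + 1) / ((k + 1 : ℕ) : ℝ) ^ a

/-- the stuffle product of two words, a list of words (with repetitions) -/
def stuffle : List ℕ → List ℕ → List (List ℕ)
  | [], l => [l]
  | i :: k, [] => [i :: k]
  | i :: k, j :: l => (stuffle k (j :: l)).map (i :: ·) ++ (stuffle (i :: k) l).map (j :: ·) ++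
      (stuffle k l).map ((i + j) :: ·)
termination_by k l => k.length + l.length

/-- words in positive integers with first letter at least `2` -/
def Admissible (w : List ℕ) : Prop := (∀ a ∈ w, 1 ≤ a) ∧ ∀ a ∈ w.head?, 2 ≤ a

/-- stuffle homomorphisms: `φ` is `1` at the empty word and `φ(u) φ(v)` is the sum of `φ(w)` over the
stuffle product of `u` and `v`, for all admissible words `u`, `v` -/
def StuffleHom {A : Type} [CommRing A] (φ : List ℕ → A) : Prop :=
  φ [] = 1 ∧ ∀ u v, Admissible u → Admissible v → φ u * φ v = ((stuffle u v).map φ).sum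

/-- `Before u v`: `u` is smaller than `v` in the lexicographic order of words for which the larger
integer is the smaller letter. -/
def Before (u v : List ℕ) : Prop := List.Lex (fun a b : ℕ => b < a) u v

/-- Lyndon words: nonempty words smaller than all their proper nonempty suffixes. -/
def Lyndon (w : List ℕ) : Prop := w ≠ [] ∧ ∀ u v, w = u ++ v → u ≠ [] → v ≠ [] → Before w v

/-- The window: words of length at most `p` with positive letters of size at most `κ N` whose first
letter is at least `N`. -/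
def Window (p : ℕ) (κ : ℝ) (N : ℕ) (w : List ℕ) : Prop :=
  w.length ≤ p ∧ (∀ a ∈ w, 1 ≤ a ∧ (a : ℝ) ≤ κ * N) ∧ ∀ a ∈ w.head?, N ≤ a

/-- no sum of letters of `w` (at least one letter, at different places) belongs to `H` -/
def Avoids (w : List ℕ) (H : Finset ℕ) : Prop := ∀ v, v.Sublist w → v ≠ [] → v.sum ∉ H

lemma nested_eq (l : List ℕ) : ∀ m, nested l m = Pool.Agent.Y760.ZG.hr l m := by
  induction l with
  | nil =>
    intro m
    rw [nested, Pool.Agent.Y760.ZG.hr_nil]
  | cons a l ih =>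
    intro m
    rw [nested, Pool.Agent.Y760.ZG.hr_cons]
    exact Finset.sum_congr rfl fun n _ => by rw [ih]

lemma mzv_eq (w : List ℕ) : mzv w = Pool.Agent.Y760.ZG.mz w := by
  rcases w with _ | ⟨a, l⟩
  · rw [mzv, Pool.Agent.Y760.ZG.mz]
  · rw [mzv, Pool.Agent.Y760.ZG.mz]
    exact tsum_congr fun k => by rw [nested_eq]

lemma stuffle_eq (u v : List ℕ) : stuffle u v = Pool.Agent.Y760.ZF.sti u v := by
  induction u, v using stuffle.induct with
  | case1 l => rw [stuffle, Pool.Agent.Y760.ZF.sti]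
  | case2 i k => rw [stuffle, Pool.Agent.Y760.ZF.sti]
  | case3 i k j l ih1 ih2 ih3 => rw [stuffle, Pool.Agent.Y760.ZF.sti, ih1, ih2, ih3]

lemma before_of_ng (u : List ℕ) : ∀ v : List ℕ,
    Pool.Agent.L0h64.ZV.ng u < Pool.Agent.L0h64.ZV.ng v → Before u v := by
  induction u with
  | nil =>
    intro v h
    rcases v with _ | ⟨b, v⟩
    · exact absurd h (lt_irrefl _)
    · exact List.Lex.nil
  | cons a u ih =>
    intro v h
    rcases v with _ | ⟨b, v⟩
    · exact absurd h (not_lt.2 (Pool.Agent.L0h64.ZV.Lyn.prefix_le ⟨_, rfl⟩))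
    · rcases List.cons_lt_cons_iff.1 h with h1 | ⟨h1, h2⟩
      · exact List.Lex.rel (by simpa using h1)
      · have h3 : a = b := by simpa using h1
        subst h3
        exact List.Lex.cons (ih v h2)

lemma lyndon_of_ng {w : List ℕ}
    (h : Pool.Agent.L0h64.ZV.Lyn.IsLyn (Pool.Agent.L0h64.ZV.ng w)) : Lyndon w := by
  refine ⟨?_, fun u v h1 hu hv => before_of_ng _ _ ?_⟩
  · rintro rfl
    exact h.1 rfl
  · refine h.2 (Pool.Agent.L0h64.ZV.ng u) _ ?_ ?_ ?_
    · rw [h1]
      exact List.map_append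
    · exact fun h2 => hu (List.map_eq_nil_iff.1 h2)
    · exact fun h2 => hv (List.map_eq_nil_iff.1 h2)

lemma hom_StH {A : Type} [CommRing A] {φ : List ℕ → A} (h : StuffleHom φ) {N p : ℕ} (hN : 2 ≤ N) :
    Pool.Agent.L0h64.ZV.StH N p φ := by
  refine ⟨h.1, fun u v hu hv _ => ?_⟩
  rw [← stuffle_eq]
  exact h.2 u v ⟨hu.2, fun a ha => hN.trans (hu.1 a ha)⟩ ⟨hv.2, fun a ha => hN.trans (hv.1 a ha)⟩

lemma avoids_le {w : List ℕ} {H : Finset ℕ} (h : Avoids w H) (r : Multiset ℕ)
    (hr : r ≤ (w : Multiset ℕ)) (hr0 : r ≠ 0) : r.sum ∉ H := by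
  obtain ⟨l, hl, hlw⟩ : ∃ l : List ℕ, (l : Multiset ℕ) = r ∧ l.Sublist w := by
    induction r using Quotient.inductionOn with
    | _ r =>
      obtain ⟨l, h1, h2⟩ := Multiset.coe_le.1 hr
      exact ⟨l, Multiset.coe_eq_coe.2 h1, h2⟩
  rw [← hl, Multiset.sum_coe]
  refine h l hlw ?_
  rintro rfl
  exact hr0 hl.symm

/-- For all natural numbers `p`, `n`, `t`, `D` and real numbers `κ`, `C` there are `B > 1` and `N0`
such that for all `N ≥ N0` and all complex numbers `x_1, …, x_t` there is a set `H` of at most `t`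
integers with: for all words `w_1, …, w_n` of the window which avoid `H` and all integer polynomials
`P(X_1, …, X_t, Y_1, …, Y_n)` of total degree at most `D` with coefficients of absolute value at most
`C ^ N`,
(1) `|P(x, φ(w_1), …, φ(w_n))| ≤ B ^ N |P(x, ζ(w_1), …, ζ(w_n))|` for all complex stuffle
homomorphisms `φ` with `|φ(l)| ≤ 1` for all Lyndon words `l`;
(2) if `P(x, ζ(w_1), …, ζ(w_n)) = 0` then `P(x, φ(w_1), …, φ(w_n)) = 0` for all stuffle
homomorphisms `φ` to commutative `ℂ`-algebras. -/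
theorem result (p n t D : ℕ) (κ C : ℝ) : ∃ B : ℝ, 1 < B ∧ ∃ N0 : ℕ, ∀ N : ℕ, N0 ≤ N →
    ∀ x : Fin t → ℂ, ∃ H : Finset ℕ, H.card ≤ t ∧ ∀ w : Fin n → List ℕ,
      (∀ i, Window p κ N (w i) ∧ Avoids (w i) H) →
      ∀ P : MvPolynomial (Fin t ⊕ Fin n) ℤ, P.totalDegree ≤ D →
      (∀ b, |((P.coeff b : ℤ) : ℝ)| ≤ C ^ N) →
      (∀ φ : List ℕ → ℂ, StuffleHom φ → (∀ l, Lyndon l → ‖φ l‖ ≤ 1) →
        ‖MvPolynomial.aeval (Sum.elim x fun i => φ (w i)) P‖ ≤
          B ^ N * ‖MvPolynomial.aeval (Sum.elim x fun i => ((mzv (w i) : ℝ) : ℂ)) P‖) ∧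
      (MvPolynomial.aeval (Sum.elim x fun i => ((mzv (w i) : ℝ) : ℂ)) P = 0 →
        ∀ (A : Type) [CommRing A] [Algebra ℂ A] (φ : List ℕ → A), StuffleHom φ →
          MvPolynomial.aeval (Sum.elim (fun j => algebraMap ℂ A (x j)) fun i => φ (w i)) P = 0) := by
  obtain ⟨B, hB, N0, h⟩ := Pool.Agent.L0h64.ZV.wordT p n t D κ C
  refine ⟨B, hB, N0 + 2, fun N hN x => ?_⟩
  obtain ⟨H, hH, h1⟩ := h N (by omega) x
  refine ⟨H, hH, fun w hw P hP hc => ?_⟩
  obtain ⟨h2, h3⟩ := h1 w (fun i => ⟨(hw i).1, avoids_le (hw i).2⟩) P hP hc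
  simp only [mzv_eq]
  exact ⟨fun φ hφ hφ1 => h2 φ (hom_StH hφ (by omega)) fun l hl => hφ1 l (lyndon_of_ng hl),
    fun h0 A _ _ φ hφ => h3 h0 A φ (hom_StH hφ (by omega))⟩

end Pool.Agent.Results.MP_154526_nt.ArbitraryParameters
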